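import Pool.Agent.H29.SX.Targets

/-! Row REL of board shx (MP_c65535_nt): relations between monomials. -/

set_option autoImplicit false

namespace Pool.Agent.H71.SX

open NumberField Height Finset Polynomial Pool.Agent.H24.RD Pool.Agent.H23.RDD Pool.Agent.H29.RQ
  Pool.Agent.H29.SX

lemma finrank_le_of_Cj (F Ω : Type) [Field F] [NumberField F] [Field Ω] [CharZero Ω] [Algebra F Ω]
    [IsAlgClosed Ω] [Algebra.IsAlgebraic F Ω] (K : IntermediateField F Ω) (d : ℕ) (β : Ω)
    (h : Cj F Ω K d β) : FiniteDimensional K (IntermediateField.adjoin K {β}) ∧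
      Module.finrank K (IntermediateField.adjoin K {β}) ≤ d := by
  classical
  obtain ⟨s, hs, hσ⟩ := h
  have hK : Algebra.IsAlgebraic K Ω := Algebra.IsAlgebraic.tower_top (K := F) K
  have hint : IsIntegral K β := (hK.isAlgebraic β).isIntegral
  have hcl : IsAlgClosure K Ω := ⟨inferInstance, hK⟩
  have hN : Normal K Ω := IsAlgClosure.normal K Ω
  refine ⟨IntermediateField.adjoin.finiteDimensional hint, ?_⟩
  rw [IntermediateField.adjoin.finrank hint]
  have hsep : (minpoly K β).Separable := (minpoly.irreducible hint).separable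
  have hcard := Polynomial.card_rootSet_eq_natDegree (K := Ω) hsep (IsAlgClosed.splits _)
  rw [← hcard, ← Set.toFinset_card]
  refine (card_le_card ?_).trans hs
  intro x hx
  rw [Set.mem_toFinset, mem_rootSet] at hx
  obtain ⟨σ, hσx⟩ := minpoly.exists_algEquiv_of_root' (hK.isAlgebraic β) hx.2
  have h1 := hσ (AlgEquiv.restrictScalars F σ) (fun z hz => σ.commutes (⟨z, hz⟩ : K))
  rw [← hσx]
  exact h1

theorem pf_REL : T_REL := by
  intro F Ω _ _ _ _ _ _ _ K d β hC r γ q S hS
  classical
  obtain ⟨hfd, hfr⟩ := finrank_le_of_Cj F Ω K d β hC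
  set y : (Fin (r + 1) → ℤ) → Ω := fun a => (pt (fun i => algebraMap F Ω (γ i)) β a) ^ q with hy
  have hmem : ∀ a, y a ∈ IntermediateField.adjoin K {β} := by
    intro a
    show (pt (fun i => algebraMap F Ω (γ i)) β a) ^ q ∈ IntermediateField.adjoin K {β}
    apply pow_mem
    unfold pt
    apply mul_mem
    · exact zpow_mem (IntermediateField.mem_adjoin_simple_self K β) _
    · apply prod_mem
      intro i _
      apply zpow_mem
      have h1 : algebraMap F Ω (γ i) = algebraMap K Ω (algebraMap F K (γ i)) :=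
        IsScalarTower.algebraMap_apply F K Ω (γ i)
      show algebraMap F Ω (γ i) ∈ IntermediateField.adjoin K {β}
      rw [h1]
      exact IntermediateField.algebraMap_mem _ _
  have hnl : ¬ LinearIndependent K (fun a : S => (⟨y a.1, hmem a.1⟩ :
      IntermediateField.adjoin K {β})) := by
    intro hli
    have h1 := hli.fintype_card_le_finrank
    rw [Fintype.card_coe] at h1
    omega
  rw [Fintype.not_linearIndependent_iff] at hnl
  obtain ⟨g, hg, i0, hi0⟩ := hnl
  let φ : (Fin (r + 1) → ℤ) → K := fun a => if h : a ∈ S then g ⟨a, h⟩ else 0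
  let f : (Fin (r + 1) → ℤ) →₀ K := Finsupp.onFinset S φ (by
    intro a ha
    by_contra hn
    exact ha (dif_neg hn))
  have hfs : f.support ⊆ S := Finsupp.support_onFinset_subset
  have hfa : ∀ a : S, f a.1 = g a := by
    intro a
    show φ a.1 = g a
    exact dif_pos a.2
  refine ⟨f, ?_, fun a ha => hfs ha, ?_⟩
  · intro h0
    apply hi0
    rw [← hfa i0, h0]
    rfl
  · unfold ev
    rw [Finsupp.sum_of_support_subset f hfs _ (fun a _ => by rw [map_zero, zero_mul]),
      ← Finset.sum_coe_sort S]
    have h2 := congrArg (fun z : IntermediateField.adjoin K {β} => (z : Ω)) hg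
    simp only [AddSubmonoidClass.coe_finsetSum, ZeroMemClass.coe_zero] at h2
    rw [← h2]
    apply sum_congr rfl
    intro a _
    rw [hfa a]
    show algebraMap K Ω (g a) * y a.1 = ((g a • (⟨y a.1, hmem a.1⟩ :
      IntermediateField.adjoin K {β}) : IntermediateField.adjoin K {β}) : Ω)
    rw [IntermediateField.coe_smul, Algebra.smul_def]

end Pool.Agent.H71.SX
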