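import Pool.Agent.H29.SX.Targets

/-! Row PDH of board shx (MP_c65535_nt): from powers to binomial coefficients. -/

set_option autoImplicit false

namespace Pool.Agent.H71.SX

open NumberField Height Finset Polynomial Pool.Agent.H24.RD Pool.Agent.H23.RDD Pool.Agent.H29.RQ
  Pool.Agent.H29.SX

/-- The polynomial whose value at `n` is a binomial coefficient. -/
noncomputable def bpol (M : Type) [Field M] (n0 : ℤ) (k : ℕ) : M[X] :=
  C ((k.factorial : M)⁻¹) * (descPochhammer M k).comp (X + C (n0 : M))

lemma bpol_eval (M : Type) [Field M] [CharZero M] (n n0 : ℤ) (b k : ℕ) (h : (b : ℤ) = n + n0) :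
    (bpol M n0 k).eval (n : M) = (b.choose k : M) := by
  unfold bpol
  rw [eval_mul, eval_C, eval_comp, eval_add, eval_X, eval_C]
  have h1 : (n : M) + (n0 : M) = (b : M) := by
    have : ((b : ℤ) : M) = ((n + n0 : ℤ) : M) := by rw [h]
    push_cast at this
    exact this.symm
  rw [h1, descPochhammer_eval_eq_descFactorial, Nat.descFactorial_eq_factorial_mul_choose]
  push_cast
  rw [← mul_assoc, inv_mul_cancel₀ (by exact_mod_cast k.factorial_ne_zero), one_mul]

lemma bpol_deg (M : Type) [Field M] [CharZero M] (n0 : ℤ) (k : ℕ) :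
    (bpol M n0 k).natDegree ≤ k := by
  unfold bpol
  refine (natDegree_C_mul_le _ _).trans ?_
  rw [natDegree_comp, natDegree_X_add_C, mul_one, descPochhammer_natDegree]

theorem pf_PDH : T_PDH := by
  intro M _ _ m t R nn c d h n0 b hb κ hκ
  have h1 : ∀ j, (∏ l, ((b j l).choose (κ l) : M)) =
      ∑ lam ∈ Fintype.piFinset (fun l => range (κ l + 1)),
        (∏ l, (bpol M (n0 l) (κ l)).coeff (lam l)) * jc M lam (nn j) := by
    intro j
    have h2 : ∀ l, ((b j l).choose (κ l) : M) = ∑ e ∈ range (κ l + 1),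
        (bpol M (n0 l) (κ l)).coeff e * ((nn j l : ℤ) : M) ^ e := by
      intro l
      rw [← bpol_eval M (nn j l) (n0 l) (b j l) (κ l) (hb j l)]
      exact eval_eq_sum_range' (Nat.lt_succ_of_le (bpol_deg M (n0 l) (κ l))) _
    rw [prod_congr rfl fun l _ => h2 l, prod_univ_sum]
    apply sum_congr rfl
    intro lam _
    rw [prod_mul_distrib]
    rfl
  have h3 : ∑ j, c j * ((∏ l, ((b j l).choose (κ l) : M)) * d j) =
      ∑ lam ∈ Fintype.piFinset (fun l => range (κ l + 1)),
        (∏ l, (bpol M (n0 l) (κ l)).coeff (lam l)) * ∑ j, c j * (jc M lam (nn j) * d j) := by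
    simp only [mul_sum]
    rw [sum_comm]
    apply sum_congr rfl
    intro j _
    rw [h1 j, sum_mul, mul_sum]
    apply sum_congr rfl
    intro lam _
    ring
  rw [h3]
  apply sum_eq_zero
  intro lam hlam
  rw [h lam, mul_zero]
  refine lt_of_le_of_lt ?_ hκ
  apply sum_le_sum
  intro l _
  have := Fintype.mem_piFinset.1 hlam l
  rw [Finset.mem_range] at this
  omega

end Pool.Agent.H71.SX
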